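import Mathlib

-- part Pool.Agent.P.MP_0f752e_al.Atom
section

set_option autoImplicit false

namespace Pool.Agent.P.MP_0f752e_al

open Subgroup

variable {G H : Type} [Group G] [Group H]

/-- conjugate subgroup -/
def cj (g : G) (E : Subgroup G) : Subgroup G := E.map (MulAut.conj g).toMonoidHom

theorem mem_cj {g x : G} {E : Subgroup G} : x ∈ cj g E ↔ g⁻¹ * x * g ∈ E := by
  constructor
  · rintro ⟨y, hy, rfl⟩
    simpa [mul_assoc] using hy
  · intro h
    exact ⟨_, h, by simp [mul_assoc]⟩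

theorem conj_mem_cj {g x : G} {E : Subgroup G} (h : x ∈ E) : g * x * g⁻¹ ∈ cj g E := by
  rw [mem_cj]; simpa [mul_assoc] using h

@[simp] theorem cj_one (E : Subgroup G) : cj 1 E = E := by
  ext x; simp [mem_cj]

theorem cj_mul (g h : G) (E : Subgroup G) : cj (g * h) E = cj g (cj h E) := by
  ext x; simp [mem_cj, mul_assoc]

@[simp] theorem cj_inv_cj (g : G) (E : Subgroup G) : cj g⁻¹ (cj g E) = E := by
  rw [← cj_mul]; simp

@[simp] theorem cj_cj_inv (g : G) (E : Subgroup G) : cj g (cj g⁻¹ E) = E := by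
  rw [← cj_mul]; simp

theorem map_cj (f : G →* H) (g : G) (E : Subgroup G) :
    (cj g E).map f = cj (f g) (E.map f) := by
  unfold cj
  rw [map_map, map_map]
  congr 1
  ext x
  simp

/-- `A` normalises `B` -/
def Nz (A B : Subgroup G) : Prop := ∀ a ∈ A, ∀ b ∈ B, a * b * a⁻¹ ∈ B

theorem Nz.cj_eq {A B : Subgroup G} (h : Nz A B) {a : G} (ha : a ∈ A) : cj a B = B := by
  ext x
  rw [mem_cj]
  constructor
  · intro hx
    simpa [mul_assoc] using h a ha _ hx
  · intro hx
    simpa using h a⁻¹ (A.inv_mem ha) _ hx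

theorem nz_iff {A B : Subgroup G} : Nz A B ↔ ∀ a ∈ A, cj a B = B :=
  ⟨fun h _ ha => h.cj_eq ha, fun h a ha _ hb => h a ha ▸ conj_mem_cj hb⟩

theorem nz_self (A : Subgroup G) : Nz A A := fun _ ha _ hb =>
  A.mul_mem (A.mul_mem ha hb) (A.inv_mem ha)

theorem Nz.mono {A A' B : Subgroup G} (h : Nz A B) (hle : A' ≤ A) : Nz A' B :=
  fun a ha => h a (hle ha)

theorem Nz.inf {A B C : Subgroup G} (h : Nz A B) (h' : Nz A C) : Nz A (B ⊓ C) :=
  fun a ha b hb => ⟨h a ha b hb.1, h' a ha b hb.2⟩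

theorem nz_of_normal (A B : Subgroup G) [hB : B.Normal] : Nz A B :=
  fun a _ b hb => hB.conj_mem b hb a

theorem nz_iff_normal {A B : Subgroup G} (h : B ≤ A) : Nz A B ↔ (B.subgroupOf A).Normal := by
  rw [normal_subgroupOf_iff h]
  exact ⟨fun h' b a hb ha => h' a ha b hb, fun h' a ha b hb => h' b a hb ha⟩

theorem sn_of_nz {A E : Subgroup G} (hE : E.IsSubnormal) (hle : A ≤ E) (h : Nz E A) :
    A.IsSubnormal := IsSubnormal.step A E hle hE ((nz_iff_normal hle).1 h)

theorem Nz.map {A B : Subgroup G} (h : Nz A B) (f : G →* H) : Nz (A.map f) (B.map f) := by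
  rintro _ ⟨a, ha, rfl⟩ _ ⟨b, hb, rfl⟩
  exact ⟨_, h a ha b hb, by simp⟩

/-- the join of the proper normal subgroups of `E` -/
def rad (E : Subgroup G) : Subgroup G := sSup {A | A ≤ E ∧ Nz E A ∧ ¬ E ≤ A}

theorem rad_le (E : Subgroup G) : rad E ≤ E := sSup_le fun _ h => h.1

theorem le_rad {A E : Subgroup G} (h1 : A ≤ E) (h2 : Nz E A) (h3 : ¬ E ≤ A) : A ≤ rad E :=
  le_sSup ⟨h1, h2, h3⟩

/-- perfect subnormal subgroups with a unique maximal normal subgroup -/
structure Atom (E : Subgroup G) : Prop where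
  sn : E.IsSubnormal
  perf : ⁅E, E⁆ = E
  irr : ¬ E ≤ rad E

theorem Atom.ne_bot {E : Subgroup G} (h : Atom E) : ¬ E ≤ ⊥ :=
  fun h' => h.irr (h'.trans bot_le)

/-- the elements that act trivially on `E / rad E` -/
def cen (E : Subgroup G) : Subgroup G where
  carrier := {g | ∀ e ∈ E, g * e * g⁻¹ * e⁻¹ ∈ rad E ∧ g⁻¹ * e * g * e⁻¹ ∈ rad E}
  one_mem' := fun e _ => by simp
  inv_mem' := fun {g} hg e he => by simpa using (hg e he).symm
  mul_mem' := fun {g h} hg hh e he => by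
    constructor
    · have h1 := (hh e he).1
      have h2 := (hg _ (rad_le E h1)).1
      have h3 := (rad E).mul_mem ((rad E).mul_mem h2 h1) (hg e he).1
      have : g * h * e * (g * h)⁻¹ * e⁻¹ = g * (h * e * h⁻¹ * e⁻¹) * g⁻¹ * (h * e * h⁻¹ * e⁻¹)⁻¹ *
          (h * e * h⁻¹ * e⁻¹) * (g * e * g⁻¹ * e⁻¹) := by group
      rw [this]; exact h3
    · have h1 := (hg e he).2
      have h2 := (hh _ (rad_le E h1)).2
      have h3 := (rad E).mul_mem ((rad E).mul_mem h2 h1) (hh e he).2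
      have : (g * h)⁻¹ * e * (g * h) * e⁻¹ = h⁻¹ * (g⁻¹ * e * g * e⁻¹) * h * (g⁻¹ * e * g * e⁻¹)⁻¹ *
          (g⁻¹ * e * g * e⁻¹) * (h⁻¹ * e * h * e⁻¹) := by group
      rw [this]; exact h3

theorem nz_cen (E : Subgroup G) : Nz (cen E) E := by
  intro g hg e he
  have := E.mul_mem (rad_le E (hg e he).1) he
  simpa using this

theorem Atom.not_le_cen {E : Subgroup G} (h : Atom E) : ¬ E ≤ cen E := by
  intro hle
  apply h.irr
  calc E = ⁅E, E⁆ := h.perf.symm
    _ ≤ rad E := commutator_le.2 fun a ha b hb => by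
        rw [commutatorElement_def]; exact (hle ha b hb).1

theorem le_cen_of_nz {A E : Subgroup G} (h1 : Nz A E) (h2 : Nz E A) (h3 : ¬ E ≤ A) :
    A ≤ cen E := by
  have hr : E ⊓ A ≤ rad E :=
    le_rad inf_le_left ((nz_self E).inf h2) fun h => h3 (h.trans inf_le_right)
  have key : ∀ a ∈ A, ∀ e ∈ E, a * e * a⁻¹ * e⁻¹ ∈ rad E := by
    intro a ha e he
    refine hr ⟨E.mul_mem (h1 a ha e he) (E.inv_mem he), ?_⟩
    have := A.mul_mem ha (h2 e he _ (A.inv_mem ha))
    simpa [mul_assoc] using this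
  intro a ha e he
  exact ⟨key a ha e he, by simpa using key a⁻¹ (A.inv_mem ha) e he⟩

theorem Atom.le_cen_of_nz {E Y : Subgroup G} (hE : Atom E) (h2 : Nz E Y) (h3 : ¬ E ≤ Y) :
    Y ≤ cen E := by
  have key : ∀ K : Subgroup G, K.IsSubnormal → E ≤ K → Y ⊓ K ≤ cen E → Y ≤ cen E := by
    intro K hK
    induction hK with
    | top => intro _ h; simpa using h
    | step L K hle _ hN ih =>
      intro hEL hL
      have hEK : E ≤ K := hEL.trans hle
      have hKL : Nz K L := (nz_iff_normal hle).2 hN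
      refine ih hEK ?_
      have hc : ∀ y ∈ Y ⊓ K, ∀ e ∈ E, y * e * y⁻¹ * e⁻¹ ∈ cen E := by
        intro y hy e he
        refine hL ⟨?_, L.mul_mem (hKL y hy.2 e (hEL he)) (L.inv_mem (hEL he))⟩
        have := Y.mul_mem hy.1 (h2 e he _ (Y.inv_mem hy.1))
        simpa [mul_assoc] using this
      have hn : ∀ y ∈ Y ⊓ K, Nz (cj y E) E := by
        rintro y hy _ ⟨e, he, rfl⟩ b hb
        have h1 := nz_cen E _ (hc y hy e he) _ (nz_self E e he b hb)
        have : (MulAut.conj y).toMonoidHom e * b * ((MulAut.conj y).toMonoidHom e)⁻¹ =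
            y * e * y⁻¹ * e⁻¹ * (e * b * e⁻¹) * (y * e * y⁻¹ * e⁻¹)⁻¹ := by
          simp only [MulEquiv.coe_toMonoidHom, MulAut.conj_apply]; group
        rw [this]; exact h1
      have hle' : ∀ y ∈ Y ⊓ K, E ≤ cj y E := by
        intro y hy
        by_contra hcon
        have h1 : Nz E (cj y E) := by
          intro e he b hb
          rw [mem_cj] at hb ⊢
          have := hn y⁻¹ ((Y ⊓ K).inv_mem hy) _ (conj_mem_cj he) _ hb
          simpa [mul_assoc] using this
        have h4 := Pool.Agent.P.MP_0f752e_al.le_cen_of_nz (hn y hy) h1 hcon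
        apply hE.not_le_cen
        intro e he
        have h5 := (cen E).mul_mem ((cen E).inv_mem (hc y hy e he)) (h4 (conj_mem_cj he))
        have : (y * e * y⁻¹ * e⁻¹)⁻¹ * (y * e * y⁻¹) = e := by group
        rwa [this] at h5
      refine Pool.Agent.P.MP_0f752e_al.le_cen_of_nz ?_ (h2.inf ((nz_self K).mono hEK))
        fun h => h3 (h.trans inf_le_left)
      intro y hy e he
      have := mem_cj.1 (hle' y⁻¹ ((Y ⊓ K).inv_mem hy) he)
      simpa using this
  refine key E hE.sn le_rfl ?_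
  exact Pool.Agent.P.MP_0f752e_al.le_cen_of_nz ((nz_self E).mono inf_le_right)
    (h2.inf (nz_self E)) fun h => h3 (h.trans inf_le_left)

/-- Wielandt's lemma -/
theorem Atom.le_or_le_cen {E A : Subgroup G} (hE : Atom E) (hA : A.IsSubnormal) :
    E ≤ A ∨ A ≤ cen E := by
  induction hA with
  | top => exact Or.inl le_top
  | step L K hle _ hN ih =>
    rcases ih with h | h
    · by_cases hEL : E ≤ L
      · exact Or.inl hEL
      · exact Or.inr (hE.le_cen_of_nz (((nz_iff_normal hle).2 hN).mono h) hEL)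
    · exact Or.inr (hle.trans h)

theorem Atom.le_of_not_nz {E A : Subgroup G} (hE : Atom E) (hA : A.IsSubnormal)
    (h : ¬ Nz A E) : E ≤ A :=
  (hE.le_or_le_cen hA).resolve_right fun h' => h ((nz_cen E).mono h')

theorem Atom.le_or_le {E A B : Subgroup G} (hE : Atom E) (hA : A.IsSubnormal)
    (hB : B.IsSubnormal) (h : E ≤ A ⊔ B) : E ≤ A ∨ E ≤ B := by
  by_contra hcon
  push Not at hcon
  exact hE.not_le_cen (h.trans (sup_le ((hE.le_or_le_cen hA).resolve_left hcon.1)
    ((hE.le_or_le_cen hB).resolve_left hcon.2)))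

theorem sn_map (f : G →* H) (hf : f.range.IsSubnormal) {E : Subgroup G} (hE : E.IsSubnormal) :
    (E.map f).IsSubnormal := by
  have h1 := (hE.map f.rangeRestrict_surjective).trans' hf
  rwa [map_map] at h1

theorem Atom.map {E : Subgroup G} (hE : Atom E) (f : G →* H) (hf : f.range.IsSubnormal)
    (hk : ¬ E ≤ f.ker) : Atom (E.map f) where
  sn := sn_map f hf hE.sn
  perf := by rw [← map_commutator, hE.perf]
  irr := by
    intro hle
    have h1 : rad (E.map f) ≤ (rad E).map f := by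
      refine sSup_le ?_
      rintro A ⟨hA1, hA2, hA3⟩
      have h2 : E ⊓ A.comap f ≤ rad E := by
        refine le_rad inf_le_left ((nz_self E).inf ?_) ?_
        · intro e he b hb
          have := hA2 (f e) ⟨e, he, rfl⟩ (f b) hb
          simpa [mem_comap] using this
        · intro h
          exact hA3 (map_le_iff_le_comap.2 (h.trans inf_le_right))
      intro a ha
      obtain ⟨e, he, rfl⟩ := hA1 ha
      exact ⟨e, h2 ⟨he, ha⟩, rfl⟩
    have h3 : E ⊓ f.ker ≤ rad E :=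
      le_rad inf_le_left ((nz_self E).inf (nz_of_normal _ _)) fun h => hk (h.trans inf_le_right)
    apply hE.irr
    intro e he
    obtain ⟨m, hm, hme⟩ := h1 (hle ⟨e, he, rfl⟩)
    have h4 : e * m⁻¹ ∈ rad E :=
      h3 ⟨E.mul_mem he (E.inv_mem (rad_le E hm)), by simp [hme]⟩
    simpa using (rad E).mul_mem h4 hm

theorem Atom.le_of_map_le {E A : Subgroup G} (hE : Atom E) (f : G →* H) (hk : ¬ E ≤ f.ker)
    (hA : A.IsSubnormal) (h : E.map f ≤ A.map f) : E ≤ A :=
  (hE.le_or_le hA (Normal.isSubnormal inferInstance) (map_le_map_iff.1 h)).resolve_right hk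

theorem Atom.eq_of_map_eq {E E' : Subgroup G} (hE : Atom E) (hE' : Atom E') (f : G →* H)
    (hk : ¬ E ≤ f.ker) (h : E.map f = E'.map f) : E = E' := by
  have h1 := hE.le_of_map_le f hk hE'.sn h.le
  exact le_antisymm h1 (hE'.le_of_map_le f (fun h2 => hk (h1.trans h2)) hE.sn h.ge)

theorem conj_range_sn (g : G) : (MulAut.conj g).toMonoidHom.range.IsSubnormal := by
  rw [MonoidHom.range_eq_top.2 (MulAut.conj g).surjective]; exact IsSubnormal.top

theorem Atom.not_le_conj_ker {E : Subgroup G} (hE : Atom E) (g : G) :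
    ¬ E ≤ (MulAut.conj g).toMonoidHom.ker := by
  rw [(MonoidHom.ker_eq_bot_iff _).2 (MulAut.conj g).injective]; exact hE.ne_bot

theorem Atom.cj {E : Subgroup G} (hE : Atom E) (g : G) : Atom (cj g E) :=
  hE.map _ (conj_range_sn g) (hE.not_le_conj_ker g)

theorem cj_not_le {E K : Subgroup G} [hK : K.Normal] (h : ¬ E ≤ K) (g : G) : ¬ cj g E ≤ K := by
  intro h'
  apply h
  intro e he
  have := hK.conj_mem _ (h' (conj_mem_cj (g := g) he)) g⁻¹
  simpa [mul_assoc] using this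

theorem Atom.nz_map_iff {x : Subgroup G} (hx : Atom x) (f : G →* H) (hk : ¬ x ≤ f.ker)
    (T : Subgroup G) : Nz (T.map f) (x.map f) ↔ Nz T x := by
  refine ⟨fun h => nz_iff.2 fun t ht => ?_, fun h => h.map f⟩
  refine (hx.eq_of_map_eq (hx.cj t) f hk ?_).symm
  rw [map_cj, h.cj_eq ⟨t, ht, rfl⟩]

theorem exists_lift [Finite G] (f : G →* H) {E' : Subgroup H} (hE' : Atom E')
    (hle : E' ≤ f.range) : ∃ E : Subgroup G, Atom E ∧ ¬ E ≤ f.ker ∧ E.map f = E' := by
  obtain ⟨E, ⟨hE1, hE2⟩, hmin⟩ := WellFounded.has_min (wellFounded_lt (α := Subgroup G))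
    {E | E.IsSubnormal ∧ E.map f = E'} ⟨E'.comap f, hE'.sn.comap f, map_comap_eq_self hle⟩
  have key : ∀ A, A ≤ E → Nz E A → A.map f = E' → E ≤ A := by
    intro A h1 h2 h3
    by_contra hcon
    exact hmin A ⟨sn_of_nz hE1 h1 h2, h3⟩ (lt_of_le_of_ne h1 fun h => hcon h.ge)
  refine ⟨E, ⟨hE1, ?_, ?_⟩, ?_, hE2⟩
  · have h1 : ⁅E, E⁆ ≤ E := commutator_le.2 fun a ha b hb => by
      rw [commutatorElement_def]
      exact E.mul_mem (E.mul_mem (E.mul_mem ha hb) (E.inv_mem ha)) (E.inv_mem hb)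
    refine le_antisymm h1 (key _ h1 ?_ ?_)
    · refine nz_iff.2 fun e he => ?_
      unfold cj
      rw [map_commutator]
      have := (nz_self E).cj_eq he
      unfold cj at this
      rw [this]
    · rw [map_commutator, hE2, hE'.perf]
  · intro h
    have h1 : rad E ≤ (rad E').comap f := by
      refine sSup_le ?_
      rintro A ⟨hA1, hA2, hA3⟩
      rw [← map_le_iff_le_comap]
      refine le_rad (hE2 ▸ map_mono hA1) (hE2 ▸ hA2.map f) fun h' => hA3 (key A hA1 hA2 ?_)
      exact le_antisymm (hE2 ▸ map_mono hA1) h'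
    apply hE'.irr
    rw [← hE2, map_le_iff_le_comap, hE2]
    exact h.trans h1
  · intro h
    apply hE'.ne_bot
    rw [← hE2, le_bot_iff, Subgroup.map_eq_bot_iff]
    exact h

theorem Atom.nz_cj [Finite G] {E : Subgroup G} (hE : Atom E) (g : G) :
    Nz (Pool.Agent.P.MP_0f752e_al.cj g E) E := by
  by_contra h
  have h1 := hE.le_of_not_nz (hE.cj g).sn h
  have h2 : E = Pool.Agent.P.MP_0f752e_al.cj g E := by
    refine eq_of_le_of_card_ge h1 (le_of_eq ?_)
    exact (Nat.card_congr (E.equivMapOfInjective _ (MulAut.conj g).injective).toEquiv).symm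
  exact h (h2 ▸ nz_self E)

end Pool.Agent.P.MP_0f752e_al
end

-- part Pool.Agent.P.MP_0f752e_al.Cls
section

set_option autoImplicit false

namespace Pool.Agent.P.MP_0f752e_al

open Subgroup

variable {G H : Type} [Group G] [Group H]

/-- atoms that move `x` and are moved by `j` -/
def Lam (x j T : Subgroup G) : Prop := Atom T ∧ ¬ Nz T x ∧ ¬ Nz j T

/-- conjugacy under `j` -/
def Rel (j T T' : Subgroup G) : Prop := ∃ h ∈ j, cj h T = T'

theorem Rel.refl (j T : Subgroup G) : Rel j T T := ⟨1, j.one_mem, cj_one T⟩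

theorem Rel.symm {j T T' : Subgroup G} (h : Rel j T T') : Rel j T' T := by
  obtain ⟨a, ha, rfl⟩ := h
  exact ⟨a⁻¹, j.inv_mem ha, cj_inv_cj a T⟩

theorem Rel.trans {j T T' T'' : Subgroup G} (h : Rel j T T') (h' : Rel j T' T'') :
    Rel j T T'' := by
  obtain ⟨a, ha, rfl⟩ := h
  obtain ⟨b, hb, rfl⟩ := h'
  exact ⟨b * a, j.mul_mem hb ha, cj_mul b a T⟩

theorem Rel.cj {j T T' : Subgroup G} (h : Rel j T T') {g : G} (hg : cj g j = j) :
    Rel j (cj g T) (cj g T') := by
  obtain ⟨a, ha, rfl⟩ := h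
  refine ⟨g * a * g⁻¹, hg ▸ conj_mem_cj ha, ?_⟩
  rw [← cj_mul, ← cj_mul]
  congr 1
  group

/-- `w` lists representatives of the `j`-classes of `Lam x j`; there are exactly five -/
structure Frame (x j : Subgroup G) (w : Fin 5 → Subgroup G) : Prop where
  lam : ∀ i, Lam x j (w i)
  inj : ∀ i i', Rel j (w i) (w i') → i = i'
  surj : ∀ T, Lam x j T → ∃ i, Rel j (w i) T

/-- `j'` permutes the five classes and induces every even permutation of them -/
structure Partner (j j' : Subgroup G) (w : Fin 5 → Subgroup G) : Prop where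
  alt : ∀ σ ∈ alternatingGroup (Fin 5), ∃ h ∈ j', ∀ i, Rel j (cj h (w i)) (w (σ i))
  perm : ∀ h ∈ j', ∀ i, ∃ i', Rel j (cj h (w i)) (w i')

/-- some element of `U` moves a marked atom `j` of `x` to an atom that is not its partner -/
def BadIn (U x : Subgroup G) : Prop :=
  ∃ (j : Subgroup G) (w : Fin 5 → Subgroup G) (g : G),
    Atom j ∧ Frame x j w ∧ g ∈ U ∧ cj g j ≠ j ∧ ¬ Partner j (cj g j) w

/-- the class of groups with no bad atom -/
def FF (G : Type) [Group G] : Prop := ∀ x : Subgroup G, Atom x → ¬ BadIn ⊤ x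

/-- the class contains the trivial group -/
theorem ff_trivial [Subsingleton G] : FF G :=
  fun x hx _ => hx.ne_bot (eq_bot_of_subsingleton x).le

theorem BadIn.mono {U U' x : Subgroup G} (h : BadIn U x) (hle : U ≤ U') : BadIn U' x := by
  obtain ⟨j, w, g, h1, h2, h3, h4⟩ := h
  exact ⟨j, w, g, h1, h2, hle h3, h4⟩

theorem Lam.le {x j T : Subgroup G} (h : Lam x j T) (hx : Atom x) : x ≤ T :=
  hx.le_of_not_nz h.1.sn h.2.1

theorem Lam.le' {x j T : Subgroup G} (h : Lam x j T) (hj : j.IsSubnormal) : T ≤ j :=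
  h.1.le_of_not_nz hj h.2.2

section transfer

variable (f : G →* H) (hf : f.range.IsSubnormal) {x : Subgroup G} (hx : Atom x)
  (hk : ¬ x ≤ f.ker)

theorem rel_map_iff {j T T' : Subgroup G} (hT : Atom T) (hT' : Atom T') (hTk : ¬ T ≤ f.ker) :
    Rel (j.map f) (T.map f) (T'.map f) ↔ Rel j T T' := by
  constructor
  · rintro ⟨_, ⟨h, hh, rfl⟩, he⟩
    refine ⟨h, hh, (hT.cj h).eq_of_map_eq hT' f (cj_not_le hTk h) ?_⟩
    rw [map_cj, he]
  · rintro ⟨h, hh, rfl⟩
    exact ⟨f h, ⟨h, hh, rfl⟩, (map_cj f h T).symm⟩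

theorem partner_map_iff {j j' : Subgroup G} {w : Fin 5 → Subgroup G} (hw : ∀ i, Atom (w i))
    (hwk : ∀ i, ¬ w i ≤ f.ker) :
    Partner (j.map f) (j'.map f) (fun i => (w i).map f) ↔ Partner j j' w := by
  have key : ∀ (h : G) i i', Rel (j.map f) (cj (f h) ((w i).map f)) ((w i').map f) ↔
      Rel j (cj h (w i)) (w i') := by
    intro h i i'
    rw [← map_cj]
    exact rel_map_iff f ((hw i).cj h) (hw i') (cj_not_le (hwk i) h)
  constructor
  · rintro ⟨h1, h2⟩
    constructor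
    · intro σ hσ
      obtain ⟨_, ⟨h, hh, rfl⟩, h3⟩ := h1 σ hσ
      exact ⟨h, hh, fun i => (key h i _).1 (h3 i)⟩
    · intro h hh i
      obtain ⟨i', h3⟩ := h2 (f h) ⟨h, hh, rfl⟩ i
      exact ⟨i', (key h i i').1 h3⟩
  · rintro ⟨h1, h2⟩
    constructor
    · intro σ hσ
      obtain ⟨h, hh, h3⟩ := h1 σ hσ
      exact ⟨f h, ⟨h, hh, rfl⟩, fun i => (key h i _).2 (h3 i)⟩
    · rintro _ ⟨h, hh, rfl⟩ i
      obtain ⟨i', h3⟩ := h2 h hh i
      exact ⟨i', (key h i i').2 h3⟩

include hx hk in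
theorem Lam.not_le_ker {j T : Subgroup G} (h : Lam x j T) : ¬ T ≤ f.ker :=
  fun h' => hk ((h.le hx).trans h')

include hf hx hk in
theorem Lam.map {j T : Subgroup G} (h : Lam x j T) : Lam (x.map f) (j.map f) (T.map f) :=
  ⟨h.1.map f hf (h.not_le_ker f hx hk), fun h' => h.2.1 ((hx.nz_map_iff f hk T).1 h'),
    fun h' => h.2.2 ((h.1.nz_map_iff f (h.not_le_ker f hx hk) j).1 h')⟩

include hf in
theorem Lam.lift [Finite G] {j : Subgroup G} (hj : j.IsSubnormal) {T' : Subgroup H}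
    (h : Lam (x.map f) (j.map f) T') : ∃ T, Lam x j T ∧ T.map f = T' := by
  obtain ⟨T, hT, -, rfl⟩ := exists_lift f h.1 ((h.le' (sn_map f hf hj)).trans (map_le_range f j))
  exact ⟨T, ⟨hT, fun h' => h.2.1 (h'.map f), fun h' => h.2.2 (h'.map f)⟩, rfl⟩

include hf hx hk in
theorem frame_map_iff [Finite G] {j : Subgroup G} (hj : j.IsSubnormal)
    {w : Fin 5 → Subgroup G} (hw : ∀ i, Lam x j (w i)) :
    Frame (x.map f) (j.map f) (fun i => (w i).map f) ↔ Frame x j w := by
  constructor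
  · rintro ⟨-, h2, h3⟩
    refine ⟨hw, fun i i' h => h2 i i' ?_, fun T hT => ?_⟩
    · exact (rel_map_iff f (hw i).1 (hw i').1 ((hw i).not_le_ker f hx hk)).2 h
    · obtain ⟨i, hi⟩ := h3 _ (hT.map f hf hx hk)
      exact ⟨i, (rel_map_iff f (hw i).1 hT.1 ((hw i).not_le_ker f hx hk)).1 hi⟩
  · rintro ⟨-, h2, h3⟩
    refine ⟨fun i => (hw i).map f hf hx hk, fun i i' h => h2 i i' ?_, fun T' hT' => ?_⟩
    · exact (rel_map_iff f (hw i).1 (hw i').1 ((hw i).not_le_ker f hx hk)).1 h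
    · obtain ⟨T, hT, rfl⟩ := hT'.lift f hf hj
      obtain ⟨i, hi⟩ := h3 T hT
      exact ⟨i, (rel_map_iff f (hw i).1 hT.1 ((hw i).not_le_ker f hx hk)).2 hi⟩

include hf hx hk in
theorem bad_map_iff [Finite G] : BadIn f.range (x.map f) ↔ BadIn ⊤ x := by
  constructor
  · rintro ⟨j', w', _, hj', hfr, ⟨g, rfl⟩, hne, hnp⟩
    have hle : j' ≤ f.range :=
      hj'.le_of_not_nz hf fun h => hne (h.cj_eq ⟨g, rfl⟩)
    obtain ⟨j, hj, -, rfl⟩ := exists_lift f hj' hle
    choose w hw hw' using fun i => (hfr.lam i).lift f hf hj.sn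
    obtain rfl : w' = fun i => (w i).map f := funext fun i => (hw' i).symm
    refine ⟨j, w, g, hj, (frame_map_iff f hf hx hk hj.sn hw).1 hfr, mem_top g, ?_, ?_⟩
    · intro h
      apply hne
      rw [← map_cj, h]
    · intro h
      apply hnp
      rw [← map_cj]
      exact (partner_map_iff f (fun i => (hw i).1) fun i => (hw i).not_le_ker f hx hk).2 h
  · rintro ⟨j, w, g, hj, hfr, -, hne, hnp⟩
    have hjk : ¬ j ≤ f.ker := fun h =>
      hk ((((hfr.lam 0).le hx).trans ((hfr.lam 0).le' hj.sn)).trans h)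
    refine ⟨j.map f, fun i => (w i).map f, f g, hj.map f hf hjk,
      (frame_map_iff f hf hx hk hj.sn hfr.lam).2 hfr, ⟨g, rfl⟩, ?_, ?_⟩
    · intro h
      apply hne
      refine (hj.eq_of_map_eq (hj.cj g) f hjk ?_).symm
      rw [map_cj, h]
    · intro h
      apply hnp
      rw [← map_cj] at h
      exact (partner_map_iff f (fun i => (hfr.lam i).1)
        fun i => (hfr.lam i).not_le_ker f hx hk).1 h

end transfer

theorem Frame.cj [Finite G] {x j : Subgroup G} {w : Fin 5 → Subgroup G} (hx : Atom x)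
    (hj : Atom j) (h : Frame x j w) (g : G) :
    Frame (cj g x) (cj g j) (fun i => cj g (w i)) :=
  (frame_map_iff _ (conj_range_sn g) hx (hx.not_le_conj_ker g) hj.sn h.lam).2 h

theorem Partner.cj {j j' : Subgroup G} {w : Fin 5 → Subgroup G} (hw : ∀ i, Atom (w i))
    (h : Partner j j' w) (g : G) : Partner (cj g j) (cj g j') (fun i => cj g (w i)) :=
  (partner_map_iff _ hw fun i => (hw i).not_le_conj_ker g).2 h

theorem BadIn.cj [Finite G] {x : Subgroup G} (hx : Atom x) (h : BadIn ⊤ x) (g : G) :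
    BadIn ⊤ (cj g x) :=
  ((bad_map_iff _ (conj_range_sn g) hx (hx.not_le_conj_ker g)).2 h).mono le_top

/-- `g` induces the permutation `σ` of the five classes -/
def Ind (j : Subgroup G) (w : Fin 5 → Subgroup G) (g : G) (σ : Equiv.Perm (Fin 5)) : Prop :=
  cj g j = j ∧ ∀ i, Rel j (cj g (w i)) (w (σ i))

theorem Ind.mul {j : Subgroup G} {w : Fin 5 → Subgroup G} {g h : G} {σ τ : Equiv.Perm (Fin 5)}
    (h1 : Ind j w g σ) (h2 : Ind j w h τ) : Ind j w (g * h) (σ * τ) := by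
  refine ⟨by rw [cj_mul, h2.1, h1.1], fun i => ?_⟩
  rw [cj_mul]
  exact ((h2.2 i).cj h1.1).trans (h1.2 (τ i))

theorem Ind.inv {j : Subgroup G} {w : Fin 5 → Subgroup G} {g : G} {σ : Equiv.Perm (Fin 5)}
    (h1 : Ind j w g σ) : Ind j w g⁻¹ σ⁻¹ := by
  have h0 : cj g⁻¹ j = j := by
    conv_lhs => rw [← h1.1]
    exact cj_inv_cj g j
  refine ⟨h0, fun i => ?_⟩
  have := (h1.2 (σ⁻¹ i)).cj h0
  rw [cj_inv_cj] at this
  simpa using this.symm

theorem exists_three : ∃ σ ∈ alternatingGroup (Fin 5), σ 0 ≠ 0 :=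
  ⟨Equiv.swap 0 1 * Equiv.swap 2 3, by rw [Equiv.Perm.mem_alternatingGroup]; decide, by decide⟩

theorem partner_le {j j' j'' : Subgroup G} {w : Fin 5 → Subgroup G}
    (hinj : ∀ i i', Rel j (w i) (w i') → i = i') (hj' : Atom j') (hj'' : j''.IsSubnormal)
    (hn' : Nz j' j) (hn'' : Nz j'' j) (hp' : Partner j j' w) (hp'' : Partner j j'' w) :
    j' ≤ j'' := by
  by_contra hcon
  have hc := (hj'.le_or_le_cen hj'').resolve_left hcon
  have hex : ∀ g ∈ j', ∃ σ, Ind j w g σ := by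
    intro g hg
    choose s hs using hp'.perm g hg
    have hg0 : cj g⁻¹ j = j := hn'.cj_eq (j'.inv_mem hg)
    have hsi : Function.Injective s := by
      intro a b hab
      have h1 := ((hs a).trans (hab ▸ (hs b).symm)).cj hg0
      rw [cj_inv_cj, cj_inv_cj] at h1
      exact hinj a b h1
    exact ⟨Equiv.ofBijective s (Finite.injective_iff_bijective.1 hsi), hn'.cj_eq hg, hs⟩
  let A : Subgroup G :=
    { carrier := {g | Ind j w g 1 ∧ cj g j' = j'}
      one_mem' := ⟨⟨cj_one j, fun i => by simpa using Rel.refl j (w i)⟩, cj_one j'⟩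
      mul_mem' := fun {a b} ha hb =>
        ⟨by simpa using ha.1.mul hb.1, by rw [cj_mul, hb.2, ha.2]⟩
      inv_mem' := fun {a} ha => ⟨by simpa using ha.1.inv, by
        conv_lhs => rw [← ha.2]
        exact cj_inv_cj a j'⟩ }
  have hA : A ≤ cen j' := by
    refine le_cen_of_nz (nz_iff.2 fun a ha => ha.2) ?_ ?_
    · intro e he a ha
      obtain ⟨σ, hσ⟩ := hex e he
      refine ⟨by simpa using (hσ.mul ha.1).mul hσ.inv, ?_⟩
      rw [cj_mul, cj_mul, (nz_self j').cj_eq (j'.inv_mem he), ha.2, (nz_self j').cj_eq he]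
    · intro h
      obtain ⟨σ, hσ, hσ0⟩ := exists_three
      obtain ⟨g, hg, hg'⟩ := hp'.alt σ hσ
      exact hσ0 (hinj _ _ ((hg' 0).symm.trans ((h hg).1.2 0)))
  apply hj'.not_le_cen
  calc j' = ⁅j', j'⁆ := hj'.perf.symm
    _ ≤ cen j' := by
      refine commutator_le.2 fun a ha b hb => ?_
      obtain ⟨σ, hσ⟩ := hex a ha
      obtain ⟨τ, hτ⟩ := hex b hb
      have h1 := ((hσ.mul hτ).mul hσ.inv).mul hτ.inv
      have h2 : σ * τ * σ⁻¹ * τ⁻¹ ∈ alternatingGroup (Fin 5) := by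
        rw [Equiv.Perm.mem_alternatingGroup]
        simp only [map_mul, Equiv.Perm.sign_inv]
        rcases Int.units_eq_one_or (Equiv.Perm.sign σ) with h | h <;>
          rcases Int.units_eq_one_or (Equiv.Perm.sign τ) with h' | h' <;> simp [h, h']
      obtain ⟨h, hh, hh'⟩ := hp''.alt _ h2
      have h3 : Ind j w h (σ * τ * σ⁻¹ * τ⁻¹) := ⟨hn''.cj_eq hh, hh'⟩
      have h4 : a * b * a⁻¹ * b⁻¹ * h⁻¹ ∈ A := by
        refine ⟨by simpa only [mul_inv_cancel] using h1.mul h3.inv, ?_⟩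
        rw [cj_mul, (nz_cen j').cj_eq (hc (j''.inv_mem hh))]
        exact (nz_self j').cj_eq
          (j'.mul_mem (j'.mul_mem (j'.mul_mem ha hb) (j'.inv_mem ha)) (j'.inv_mem hb))
      rw [commutatorElement_def]
      simpa using (cen j').mul_mem (hA h4) (hc hh)

theorem partner_unique [Finite G] {x j : Subgroup G} {w : Fin 5 → Subgroup G} (hj : Atom j)
    (hfr : Frame x j w) {g g' : G} (hp : Partner j (cj g j) w) (hp' : Partner j (cj g' j) w) :
    cj g j = cj g' j :=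
  le_antisymm
    (partner_le hfr.inj (hj.cj g) (hj.cj g').sn (hj.nz_cj g) (hj.nz_cj g') hp hp')
    (partner_le hfr.inj (hj.cj g') (hj.cj g).sn (hj.nz_cj g') (hj.nz_cj g) hp' hp)

theorem ff_quot [Finite G] (h : FF G) (f : G →* H) (hf : Function.Surjective f) : FF H := by
  intro x' hx' hb
  have hr : f.range = ⊤ := MonoidHom.range_eq_top.2 hf
  obtain ⟨x, hx, hk, rfl⟩ := exists_lift f hx' (hr ▸ le_top)
  exact h x hx ((bad_map_iff f (hr ▸ IsSubnormal.top) hx hk).1 (hr ▸ hb))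

theorem FF.le_ker [Finite G] (h : FF H) (f : G →* H) (hf : Function.Surjective f)
    {x : Subgroup G} (hx : Atom x) (hb : BadIn ⊤ x) : x ≤ f.ker := by
  by_contra hk
  have hr : f.range = ⊤ := MonoidHom.range_eq_top.2 hf
  have hs : f.range.IsSubnormal := hr ▸ IsSubnormal.top
  exact h _ (hx.map f hs hk) (((bad_map_iff f hs hx hk).2 hb).mono le_top)

theorem ff_subdirect [Finite G] {H' : Type} [Group H'] (h : FF H) (h' : FF H') (f : G →* H)
    (f' : G →* H') (hf : Function.Surjective f) (hf' : Function.Surjective f')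
    (hk : f.ker ⊓ f'.ker = ⊥) : FF G := fun _ hx hb =>
  hx.ne_bot (hk ▸ le_inf (h.le_ker f hf hx hb) (h'.le_ker f' hf' hx hb))

theorem Atom.not_le_subtype_ker {U : Subgroup G} {x : Subgroup U} (hx : Atom x) :
    ¬ x ≤ U.subtype.ker := by
  rw [ker_subtype]; exact hx.ne_bot

theorem subtype_range_sn {U : Subgroup G} (hU : U.IsSubnormal) :
    U.subtype.range.IsSubnormal := by
  rw [range_subtype]; exact hU

theorem bad_subtype_iff [Finite G] {U : Subgroup G} (hU : U.IsSubnormal) {x : Subgroup U}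
    (hx : Atom x) : BadIn U (x.map U.subtype) ↔ BadIn ⊤ x := by
  have := bad_map_iff U.subtype (subtype_range_sn hU) hx hx.not_le_subtype_ker
  rwa [range_subtype] at this

theorem ff_normal [Finite G] (h : FF G) (N : Subgroup G) (hN : N.Normal) : FF N :=
  fun _ hx hb => h _ (hx.map _ (subtype_range_sn hN.isSubnormal) hx.not_le_subtype_ker)
    (((bad_subtype_iff hN.isSubnormal hx).2 hb).mono le_top)

theorem exists_bad_of_badIn [Finite G] {U x : Subgroup G} (hU : U.IsSubnormal) (hx : Atom x)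
    (hb : BadIn U x) : ∃ x' : Subgroup U, Atom x' ∧ BadIn ⊤ x' ∧ x'.map U.subtype = x := by
  have hle : x ≤ U.subtype.range := by
    obtain ⟨j, w, g, hj, hfr, hg, hne, -⟩ := hb
    rw [range_subtype]
    exact (((hfr.lam 0).le hx).trans ((hfr.lam 0).le' hj.sn)).trans
      (hj.le_of_not_nz hU fun h => hne (h.cj_eq hg))
  obtain ⟨x', hx', -, rfl⟩ := exists_lift U.subtype hx hle
  exact ⟨x', hx', (bad_subtype_iff hU hx').1 hb, rfl⟩

theorem ff_product [Finite G] (N M : Subgroup G) (hN : N.Normal) (hM : M.Normal) (h1 : FF N)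
    (h2 : FF M) (htop : N ⊔ M = ⊤) : FF G := by
  have key : ∀ U : Subgroup G, U.Normal → FF U → ∀ (x j : Subgroup G) (w : Fin 5 → Subgroup G),
      Atom x → Atom j → Frame x j w → ∀ g ∈ U, cj g j = j ∨ Partner j (cj g j) w := by
    intro U hU hF x j w hx hj hfr g hg
    by_contra hcon
    push Not at hcon
    obtain ⟨x', hx', hb, -⟩ := exists_bad_of_badIn hU.isSubnormal hx
      ⟨j, w, g, hj, hfr, hg, hcon.1, hcon.2⟩
    exact hF x' hx' hb
  rintro x hx ⟨j, w, g, hj, hfr, -, hne, hnp⟩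
  have hg : g ∈ ((N ⊔ M : Subgroup G) : Set G) := by rw [htop]; trivial
  rw [normal_mul] at hg
  obtain ⟨n, hn, m, hm, rfl⟩ := hg
  simp only at hne hnp
  rw [cj_mul] at hne hnp
  by_cases hmj : cj m j = j
  · rw [hmj] at hne hnp
    exact (key N hN h1 x j w hx hj hfr n hn).elim hne hnp
  · have hp := (key M hM h2 x j w hx hj hfr m hm).resolve_left hmj
    have hp' := (key M hM h2 x j w hx hj hfr m⁻¹ (M.inv_mem hm)).resolve_left fun h => hmj (by
      conv_lhs => rw [← h]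
      exact cj_cj_inv m j)
    have hsw : cj m (cj m j) = j := by
      conv_lhs => rw [partner_unique hj hfr hp hp']
      exact cj_cj_inv m j
    have hfr' := hfr.cj hx hj m
    have hq := hp.cj (fun i => (hfr.lam i).1) m
    rcases key N hN h1 _ _ _ (hx.cj m) (hj.cj m) hfr' n hn with h | h
    · rw [h] at hnp
      exact hnp hp
    · exact hne ((partner_unique (hj.cj m) hfr' h hq).trans hsw)

/-- the residual, as in the frozen statement -/
def resid (G : Type) [Group G] : Subgroup G :=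
  ⨅ (H : Type) (_ : Group H) (_ : FF H) (f : G →* H) (_ : Function.Surjective f), f.ker

theorem le_resid [Finite G] {U x : Subgroup G} (hU : U.IsSubnormal) (hx : Atom x)
    (hb : BadIn U x) : x ≤ (resid U).map U.subtype := by
  obtain ⟨x', hx', hb', rfl⟩ := exists_bad_of_badIn hU hx hb
  refine map_mono ?_
  unfold resid
  simp only [le_iInf_iff]
  intro H _ hH f hf
  exact hH.le_ker f hf hx' hb'

theorem resid_le [Finite G] {U x₀ : Subgroup G} (hU : U.IsSubnormal) (hx₀ : Atom x₀)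
    (h : ∀ x, Atom x → BadIn U x → ¬ x₀ ≤ x) : (resid U).map U.subtype ≤ cen x₀ := by
  let K : Subgroup U := ((cen x₀).comap U.subtype).normalCore
  have hK : ∀ x' : Subgroup U, Atom x' → BadIn ⊤ x' → x' ≤ K := by
    intro x' hx' hb a ha b
    have h1 := hx'.cj b
    have h2 := h1.map _ (subtype_range_sn hU) h1.not_le_subtype_ker
    have h3 := (hx₀.le_or_le_cen h2.sn).resolve_left
      (h _ h2 ((bad_subtype_iff hU h1).2 (hb.cj hx' b)))
    exact h3 ⟨_, conj_mem_cj ha, rfl⟩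
  have hF : FF (U ⧸ K) := by
    intro y hy hb
    have hr : (QuotientGroup.mk' K).range = ⊤ :=
      MonoidHom.range_eq_top.2 (QuotientGroup.mk'_surjective K)
    obtain ⟨x, hx, hk, rfl⟩ := exists_lift (QuotientGroup.mk' K) hy (hr ▸ le_top)
    have := hK x hx ((bad_map_iff _ (hr ▸ IsSubnormal.top) hx hk).1 (hr ▸ hb))
    rw [QuotientGroup.ker_mk'] at hk
    exact hk this
  rw [map_le_iff_le_comap]
  refine le_trans ?_ (normalCore_le _)
  have : resid U ≤ (QuotientGroup.mk' K).ker := by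
    unfold resid
    exact iInf_le_of_le (U ⧸ K) (iInf_le_of_le inferInstance (iInf_le_of_le hF
      (iInf_le_of_le (QuotientGroup.mk' K) (iInf_le _ (QuotientGroup.mk'_surjective K)))))
  rwa [QuotientGroup.ker_mk'] at this

theorem resid_ne [Finite G] {U V x₀ : Subgroup G} (hU : U.IsSubnormal) (hV : V.IsSubnormal)
    (hUV : (U ⊔ V).IsSubnormal) (hx₀ : Atom x₀) (hb : BadIn (U ⊔ V) x₀)
    (h1 : ∀ x, Atom x → BadIn U x → ¬ x₀ ≤ x) (h2 : ∀ x, Atom x → BadIn V x → ¬ x₀ ≤ x) :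
    (resid ↥(U ⊔ V)).map (U ⊔ V).subtype ≠
      (resid U).map U.subtype ⊔ (resid V).map V.subtype := by
  intro h
  apply hx₀.not_le_cen
  exact ((le_resid hUV hx₀ hb).trans h.le).trans
    (sup_le (resid_le hU hx₀ h1) (resid_le hV hx₀ h2))

end Pool.Agent.P.MP_0f752e_al
end

-- part Pool.Agent.P.MP_0f752e_al.Wr
section

set_option autoImplicit false

namespace Pool.Agent.P.MP_0f752e_al

open Subgroup

/-- the alternating group of degree five -/
abbrev A5 : Type := alternatingGroup (Fin 5)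

theorem simple_A5 : IsSimpleGroup A5 := alternatingGroup.isSimpleGroup (by simp)

theorem atom_top : Atom (⊤ : Subgroup A5) where
  sn := IsSubnormal.top
  perf := commutator_alternatingGroup_eq_top (by simp)
  irr := by
    have := simple_A5
    intro h
    have h1 : rad (⊤ : Subgroup A5) ≤ ⊥ := by
      refine sSup_le ?_
      rintro A ⟨-, h2, h3⟩
      have hn : A.Normal := ⟨fun b hb a => h2 a (mem_top a) b hb⟩
      rcases hn.eq_bot_or_eq_top with h | h
      · exact h.le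
      · exact absurd h.ge h3
    exact top_ne_bot (le_bot_iff.1 (h.trans h1))

theorem exists_move (a : Fin 5) : ∃ s : A5, s • a ≠ a := by
  have := alternatingGroup.isPretransitive_of_three_le_card (Fin 5) (by simp)
  obtain ⟨b, hb⟩ := exists_ne a
  obtain ⟨s, hs⟩ := MulAction.exists_smul_eq A5 a b
  exact ⟨s, hs ▸ hb⟩

theorem exists_send (a b : Fin 5) : ∃ s : A5, s • a = b := by
  have := alternatingGroup.isPretransitive_of_three_le_card (Fin 5) (by simp)
  exact MulAction.exists_smul_eq A5 a b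

/-- permutational wreath product of `A5` with `H` acting on `X` -/
@[ext] structure Wr (H X : Type) where
  left : X → A5
  right : H

/-- partial functions from `X` to the five points -/
def Fn (X : Type) : Type := X → Option (Fin 5)

instance (X : Type) [Finite X] : Finite (Fn X) := by unfold Fn; infer_instance

instance (H X : Type) [Finite H] [Finite X] : Finite (Wr H X) :=
  Finite.of_injective (fun w : Wr H X => (w.left, w.right)) fun _ _ h =>
    Wr.ext (congrArg Prod.fst h) (congrArg Prod.snd h)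

variable {H X : Type} [Group H] [MulAction H X]

instance : Mul (Wr H X) := ⟨fun a b => ⟨fun x => a.left x * b.left (a.right⁻¹ • x), a.right * b.right⟩⟩
instance : One (Wr H X) := ⟨⟨fun _ => 1, 1⟩⟩
instance : Inv (Wr H X) := ⟨fun a => ⟨fun x => (a.left (a.right • x))⁻¹, a.right⁻¹⟩⟩

@[simp] theorem Wr.mul_left (a b : Wr H X) (x : X) :
    (a * b).left x = a.left x * b.left (a.right⁻¹ • x) := rfl
@[simp] theorem Wr.mul_right (a b : Wr H X) : (a * b).right = a.right * b.right := rfl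
omit [MulAction H X] in
@[simp] theorem Wr.one_left (x : X) : (1 : Wr H X).left x = 1 := rfl
omit [MulAction H X] in
@[simp] theorem Wr.one_right : (1 : Wr H X).right = 1 := rfl
@[simp] theorem Wr.inv_left (a : Wr H X) (x : X) : (a⁻¹).left x = (a.left (a.right • x))⁻¹ := rfl
@[simp] theorem Wr.inv_right (a : Wr H X) : (a⁻¹).right = a.right⁻¹ := rfl

instance : Group (Wr H X) := Group.ofLeftAxioms
  (fun a b c => Wr.ext (funext fun x => by simp [mul_assoc, mul_smul]) (by simp [mul_assoc]))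
  (fun a => Wr.ext (funext fun x => by simp) (by simp))
  (fun a => Wr.ext (funext fun x => by simp) (by simp))

instance : MulAction (Wr H X) (Fn X) where
  smul w φ := fun x => w.left x • φ (w.right⁻¹ • x)
  one_smul φ := by
    funext x
    show (1 : A5) • φ ((1 : H)⁻¹ • x) = φ x
    simp
  mul_smul a b φ := by
    funext x
    show (a.left x * b.left (a.right⁻¹ • x)) • φ ((a.right * b.right)⁻¹ • x) =
      a.left x • b.left (a.right⁻¹ • x) • φ (b.right⁻¹ • a.right⁻¹ • x)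
    rw [mul_smul, mul_inv_rev, mul_smul]

theorem Wr.smul_apply (w : Wr H X) (φ : Fn X) (x : X) :
    (w • φ) x = w.left x • φ (w.right⁻¹ • x) := rfl

variable (H X) in
/-- projection to the top group -/
def top : Wr H X →* H where
  toFun := Wr.right
  map_one' := rfl
  map_mul' _ _ := rfl

@[simp] theorem top_apply (w : Wr H X) : top H X w = w.right := rfl

theorem top_surj : Function.Surjective (top H X) := fun h => ⟨⟨fun _ => 1, h⟩, rfl⟩

theorem top_range_sn : (top H X).range.IsSubnormal := by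
  rw [MonoidHom.range_eq_top.2 top_surj]; exact IsSubnormal.top

variable (H) in
/-- the coordinate subgroup of the base group -/
def Sc (a : X) : Subgroup (Wr H X) where
  carrier := {w | w.right = 1 ∧ ∀ b, b ≠ a → w.left b = 1}
  one_mem' := ⟨rfl, fun _ _ => rfl⟩
  mul_mem' := fun {u v} hu hv => ⟨by simp [hu.1, hv.1], fun b hb => by
    simp [hu.1, hu.2 b hb, hv.2 b hb]⟩
  inv_mem' := fun {u} hu => ⟨by simp [hu.1], fun b hb => by simp [hu.1, hu.2 b hb]⟩

theorem mem_Sc {a : X} {w : Wr H X} : w ∈ Sc H a ↔ w.right = 1 ∧ ∀ b, b ≠ a → w.left b = 1 :=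
  Iff.rfl

theorem Sc_le_ker (a : X) : Sc H a ≤ (top H X).ker := fun _ h => h.1

theorem eq_one_of_inv_conj {K : Type} [Group K] {a b : K} (h : a⁻¹ * b * a = 1) : b = 1 := by
  have : b = a * (a⁻¹ * b * a) * a⁻¹ := by group
  rw [this, h]; simp

theorem cj_Sc (g : Wr H X) (a : X) : cj g (Sc H a) = Sc H (g.right • a) := by
  ext w
  rw [mem_cj, mem_Sc, mem_Sc]
  constructor
  · rintro ⟨h1, h2⟩
    have h3 : w.right = 1 := eq_one_of_inv_conj (a := g.right) (by simpa using h1)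
    refine ⟨h3, fun b hb => ?_⟩
    have := h2 (g.right⁻¹ • b) fun h => hb (by rw [← h]; simp)
    exact eq_one_of_inv_conj (a := g.left b) (by simpa [h3] using this)
  · rintro ⟨h1, h2⟩
    refine ⟨by simp [h1], fun b hb => ?_⟩
    have := h2 (g.right • b) fun h => hb (smul_left_cancel _ h)
    simp [h1, this]

variable (H X) in
/-- the base group -/
def base : (X → A5) →* Wr H X where
  toFun f := ⟨f, 1⟩
  map_one' := rfl
  map_mul' _ _ := Wr.ext (funext fun x => by simp) (by simp)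

open Classical in
variable (H) in
/-- embedding of `A5` in coordinate `a` -/
noncomputable def emb (a : X) : A5 →* Wr H X :=
  (base H X).comp (MonoidHom.mulSingle (fun _ => A5) a)

open Classical in
theorem emb_left_self (a : X) (s : A5) : (emb H a s).left a = s := by
  simp [emb, base]

open Classical in
theorem emb_left_ne {a b : X} (h : b ≠ a) (s : A5) : (emb H a s).left b = 1 := by
  simp [emb, base, Pi.mulSingle_eq_of_ne h]

theorem emb_right (a : X) (s : A5) : (emb H a s).right = 1 := rfl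

theorem emb_mem (a : X) (s : A5) : emb H a s ∈ Sc H a := ⟨rfl, fun _ hb => emb_left_ne hb s⟩

theorem emb_inj (a : X) : Function.Injective (emb H a) := fun s t h => by
  rw [← emb_left_self (H := H) a s, h, emb_left_self]

theorem range_emb (a : X) : (emb H a).range = Sc H a := by
  apply le_antisymm
  · rintro _ ⟨s, rfl⟩
    exact emb_mem a s
  · rintro w ⟨h1, h2⟩
    refine ⟨w.left a, Wr.ext (funext fun b => ?_) h1.symm⟩
    by_cases hb : b = a
    · rw [hb, emb_left_self]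
    · rw [emb_left_ne hb, h2 b hb]

theorem nz_ker_Sc (a : X) : Nz (top H X).ker (Sc H a) := nz_iff.2 fun g hg => by
  have : g.right = 1 := hg
  rw [cj_Sc, this, one_smul]

theorem sn_Sc (a : X) : (Sc H a).IsSubnormal :=
  sn_of_nz (Normal.isSubnormal inferInstance) (Sc_le_ker a) (nz_ker_Sc a)

theorem atom_Sc (a : X) : Atom (Sc H a) := by
  have := atom_top.map (emb H a) (by rw [range_emb]; exact sn_Sc a) (by
    rw [(MonoidHom.ker_eq_bot_iff _).2 (emb_inj a)]; exact atom_top.ne_bot)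
  rwa [← MonoidHom.range_eq_map, range_emb] at this

theorem eq_of_Sc_le {a b : X} (h : Sc H a ≤ Sc H b) : a = b := by
  by_contra hab
  obtain ⟨s, hs⟩ := exists_move 0
  have := (h (emb_mem a s)).2 a hab
  rw [emb_left_self] at this
  rw [this] at hs
  exact hs (one_smul _ _)

theorem Atom.eq_Sc [Finite X] {E : Subgroup (Wr H X)} (hE : Atom E) (hk : E ≤ (top H X).ker) :
    ∃ a, E = Sc H a := by
  classical
  have h1 : ∃ a, E ≤ Sc H a := by
    by_contra hcon
    push Not at hcon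
    apply hE.not_le_cen
    intro w hw
    have h2 : w.left ∈ (cen E).comap (base H X) :=
      pi_mem_of_mulSingle_mem _ fun a => by
        have h3 := (hE.le_or_le_cen (sn_Sc a)).resolve_left (hcon a) (emb_mem a (w.left a))
        have h4 : base H X (Pi.mulSingle a (w.left a)) = emb H a (w.left a) := by
          refine Wr.ext (funext fun b => ?_) rfl
          by_cases hb : b = a
          · rw [hb, emb_left_self]; simp [base]
          · rw [emb_left_ne hb]; simp [base, Pi.mulSingle_eq_of_ne hb]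
        rw [mem_comap, h4]
        exact h3
    have h3 : base H X w.left = w := Wr.ext rfl (hk hw).symm
    rw [← h3]
    exact h2
  obtain ⟨a, ha⟩ := h1
  obtain ⟨E', hE', -, rfl⟩ := exists_lift (emb H a) hE (by rwa [range_emb])
  refine ⟨a, ?_⟩
  rcases hE'.sn.eq_bot_or_top_of_isSimpleGroup simple_A5 with h | h
  · exact absurd h.le hE'.ne_bot
  · rw [h, ← MonoidHom.range_eq_map, range_emb]

theorem not_nz_Sc {T : Subgroup (Wr H X)} {a : X} :
    ¬ Nz T (Sc H a) ↔ ∃ t ∈ T, t.right • a ≠ a := by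
  rw [nz_iff]
  push Not
  refine exists_congr fun t => and_congr_right fun _ => ?_
  rw [cj_Sc]
  exact ⟨fun h h' => h (by rw [h']), fun h h' => h (eq_of_Sc_le h'.le)⟩

theorem Sc_smul_ne {a : X} {s : Wr H X} (hs : s ∈ Sc H a) (φ : Fn X) {b : X} (hb : b ≠ a) :
    (s • φ) b = φ b := by
  rw [Wr.smul_apply, hs.1, hs.2 b hb]; simp

theorem Sc_smul_self {a : X} {s : Wr H X} (hs : s ∈ Sc H a) (φ : Fn X) :
    (s • φ) a = s.left a • φ a := by
  rw [Wr.smul_apply, hs.1]; simp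

theorem Sc_moves_iff {a : X} {φ : Fn X} : (∃ s ∈ Sc H a, s • φ ≠ φ) ↔ φ a ≠ none := by
  constructor
  · rintro ⟨s, hs, hne⟩ h
    apply hne
    funext b
    by_cases hb : b = a
    · rw [hb, Sc_smul_self hs, h]; rfl
    · exact Sc_smul_ne hs φ hb
  · intro h
    obtain ⟨c, hc⟩ := Option.ne_none_iff_exists'.1 h
    obtain ⟨s, hs⟩ := exists_move c
    refine ⟨emb H a s, emb_mem a s, fun h' => hs ?_⟩
    have := congrFun h' a
    rw [Sc_smul_self (emb_mem a s), emb_left_self, hc] at this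
    exact Option.some_injective _ this

theorem exists_Sc_send {a : X} {φ φ' : Fn X} (h1 : ∀ b, b ≠ a → φ b = φ' b) (h2 : φ a ≠ none)
    (h3 : φ' a ≠ none) : ∃ s ∈ Sc H a, s • φ = φ' := by
  obtain ⟨c, hc⟩ := Option.ne_none_iff_exists'.1 h2
  obtain ⟨c', hc'⟩ := Option.ne_none_iff_exists'.1 h3
  obtain ⟨s, hs⟩ := exists_send c c'
  refine ⟨emb H a s, emb_mem a s, funext fun b => ?_⟩
  by_cases hb : b = a
  · rw [hb, Sc_smul_self (emb_mem a s), emb_left_self, hc, hc', ← hs]; rfl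
  · rw [Sc_smul_ne (emb_mem a s) φ hb, h1 b hb]

theorem Atom.eq_Sc_of_none [Finite X] (h0 : ∀ E : Subgroup H, ¬ Atom E)
    {E : Subgroup (Wr H X)} (hE : Atom E) : ∃ a, E = Sc H a := by
  refine hE.eq_Sc ?_
  by_contra hk
  exact h0 _ (hE.map _ top_range_sn hk)

theorem flat_of_none [Finite X] (h0 : ∀ E : Subgroup H, ¬ Atom E)
    (A B : Subgroup (Wr H X)) (hA : Atom A) (hB : Atom B) : Nz A B := by
  obtain ⟨a, rfl⟩ := hA.eq_Sc_of_none h0
  obtain ⟨b, rfl⟩ := hB.eq_Sc_of_none h0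
  exact (nz_ker_Sc b).mono (Sc_le_ker a)

theorem Atom.eq_Sc_of_flat [Finite X] (h1 : ∀ A B : Subgroup H, Atom A → Atom B → Nz A B)
    {j T : Subgroup (Wr H X)} (hj : Atom j) (hT : Atom T) (hm : ¬ Nz j T) :
    ∃ a, T = Sc H a := by
  refine hT.eq_Sc ?_
  by_contra hk
  have hjk : ¬ j ≤ (top H X).ker := fun h => hk ((hT.le_of_not_nz hj.sn hm).trans h)
  exact hm ((hT.nz_map_iff _ hk j).1
    (h1 _ _ (hj.map _ top_range_sn hjk) (hT.map _ top_range_sn hk)))

theorem eq_Sc_of_lam [Finite X] [Finite H]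
    (h2 : ∀ x j T : Subgroup H, Atom x → Atom j → ¬ Lam x j T)
    {x j T : Subgroup (Wr H X)} (hx : Atom x) (hj : Atom j) (h : Lam x j T) :
    ∃ a, x = Sc H a := by
  refine hx.eq_Sc ?_
  by_contra hk
  have hjk : ¬ j ≤ (top H X).ker := fun h' => hk (((h.le hx).trans (h.le' hj.sn)).trans h')
  exact h2 _ _ _ (hx.map _ top_range_sn hk) (hj.map _ top_range_sn hjk)
    (h.map _ top_range_sn hx hk)

theorem not_lam_of_flat [Finite X] (h1 : ∀ A B : Subgroup H, Atom A → Atom B → Nz A B)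
    (x j T : Subgroup (Wr H X)) (hx : Atom x) (hj : Atom j) : ¬ Lam x j T := by
  intro h
  obtain ⟨a, rfl⟩ := hj.eq_Sc_of_flat h1 h.1 h.2.2
  obtain ⟨b, rfl⟩ := hx.eq_Sc ((h.le hx).trans (Sc_le_ker a))
  exact h.2.1 ((nz_ker_Sc b).mono (Sc_le_ker a))

end Pool.Agent.P.MP_0f752e_al
end

-- part Pool.Agent.P.MP_0f752e_al.Ex
section

set_option autoImplicit false

namespace Pool.Agent.P.MP_0f752e_al

open Subgroup

/-- the symmetry group of the square: `(s, k)` is `x ↦ k ± x` -/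
def D8 : Type := Bool × Fin 4

instance : DecidableEq D8 := inferInstanceAs (DecidableEq (Bool × Fin 4))
instance : Fintype D8 := inferInstanceAs (Fintype (Bool × Fin 4))
instance : Mul D8 := ⟨fun a b => (xor a.1 b.1, if a.1 then a.2 - b.2 else a.2 + b.2)⟩
instance : One D8 := ⟨(false, 0)⟩
instance : Inv D8 := ⟨fun a => (a.1, if a.1 then a.2 else -a.2)⟩
instance : Group D8 := Group.ofLeftAxioms (by decide) (by decide) (by decide)
instance : SMul D8 (Fin 4) := ⟨fun a x => if a.1 then a.2 - x else a.2 + x⟩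
instance : MulAction D8 (Fin 4) where
  one_smul := by decide
  mul_smul := by decide

/-- element constructor -/
def el (s : Bool) (k : Fin 4) : D8 := (s, k)

/-- subgroup of order two generated by a reflection -/
def Rf (k : Fin 4) : Subgroup D8 where
  carrier := {d | d = 1 ∨ d = el true k}
  one_mem' := Or.inl rfl
  mul_mem' := fun {a b} => by
    simp only [Set.mem_ofPred_eq]; revert a b k; decide
  inv_mem' := fun {a} => by
    simp only [Set.mem_ofPred_eq]; revert a k; decide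

/-- Klein four subgroup containing a reflection -/
def Kl (k : Fin 4) : Subgroup D8 where
  carrier := {d | d = 1 ∨ d = el true k ∨ d = el false 2 ∨ d = el true (k + 2)}
  one_mem' := Or.inl rfl
  mul_mem' := fun {a b} => by
    simp only [Set.mem_ofPred_eq]; revert a b k; decide
  inv_mem' := fun {a} => by
    simp only [Set.mem_ofPred_eq]; revert a k; decide

/-- the centre -/
def Zc : Subgroup D8 where
  carrier := {d | d = 1 ∨ d = el false 2}
  one_mem' := Or.inl rfl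
  mul_mem' := fun {a b} => by
    simp only [Set.mem_ofPred_eq]; revert a b; decide
  inv_mem' := fun {a} => by
    simp only [Set.mem_ofPred_eq]; revert a; decide

theorem mem_Rf {k : Fin 4} {d : D8} : d ∈ Rf k ↔ d = 1 ∨ d = el true k := Iff.rfl
theorem mem_Kl {k : Fin 4} {d : D8} :
    d ∈ Kl k ↔ d = 1 ∨ d = el true k ∨ d = el false 2 ∨ d = el true (k + 2) := Iff.rfl
theorem mem_Zc {d : D8} : d ∈ Zc ↔ d = 1 ∨ d = el false 2 := Iff.rfl

theorem sn_Rf (k : Fin 4) : (Rf k).IsSubnormal := by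
  have h1 : (Kl k).Normal := ⟨fun a ha g => by
    simp only [mem_Kl] at ha ⊢; revert a g k; decide⟩
  refine sn_of_nz h1.isSubnormal (fun a ha => ?_) (fun a ha b hb => ?_)
  · simp only [mem_Kl, mem_Rf] at ha ⊢; clear h1; revert a k; decide
  · simp only [mem_Kl, mem_Rf] at ha hb ⊢; clear h1; revert a b k; decide

theorem Rf_sup : Rf 1 ⊔ Rf 0 = ⊤ := by
  have hu : el true 1 ∈ Rf 1 ⊔ Rf 0 := mem_sup_left (Or.inr rfl)
  have hp : el true 0 ∈ Rf 1 ⊔ Rf 0 := mem_sup_right (Or.inr rfl)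
  have key : ∀ d : D8, ∃ n : Fin 4, d = (el true 1 * el true 0) ^ (n : ℕ) ∨
      d = (el true 1 * el true 0) ^ (n : ℕ) * el true 0 := by decide
  rw [eq_top_iff]
  intro d _
  obtain ⟨n, h | h⟩ := key d
  · rw [h]; exact pow_mem (mul_mem hu hp) _
  · rw [h]; exact mul_mem (pow_mem (mul_mem hu hp) _) hp

theorem no_atom_D8 (E : Subgroup D8) : ¬ Atom E := by
  intro hE
  have h1 : E ≤ Zc := by
    rw [← hE.perf]
    refine commutator_le.2 fun a _ b _ => ?_
    rw [commutatorElement_def, mem_Zc]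
    clear * -
    revert a b; decide
  apply hE.ne_bot
  rw [← hE.perf]
  refine commutator_le.2 fun a ha b hb => ?_
  have ha' := h1 ha
  have hb' := h1 hb
  rw [commutatorElement_def, mem_bot]
  rw [mem_Zc] at ha' hb'
  clear ha hb
  revert a b; decide

abbrev G2 : Type := Wr D8 (Fin 4)
abbrev I1 : Type := Fn (Fin 4)
abbrev G1 : Type := Wr G2 I1
abbrev I0 : Type := Fn I1
abbrev G0 : Type := Wr G1 I0

/-- projections -/
def p1 : G0 →* G1 := top G1 I0
def p2 : G0 →* G2 := (top G2 I1).comp p1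
def p3 : G0 →* D8 := (top D8 (Fin 4)).comp p2

theorem p2_surj : Function.Surjective p2 := top_surj.comp top_surj
theorem p3_surj : Function.Surjective p3 := top_surj.comp p2_surj

theorem p2_range : p2.range = ⊤ := MonoidHom.range_eq_top.2 p2_surj
theorem p2_range_sn : p2.range.IsSubnormal := p2_range ▸ IsSubnormal.top

theorem flat_G2 (A B : Subgroup G2) (hA : Atom A) (hB : Atom B) : Nz A B :=
  flat_of_none no_atom_D8 A B hA hB

/-- the support of the distinguished point -/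
def Supp (ψ : I1) : Prop := ψ 2 = none ∧ ψ 3 = none ∧ ψ 1 ≠ none

open Classical in
/-- the distinguished point -/
noncomputable def φ0 : I0 := fun ψ => if Supp ψ then some 0 else none

theorem φ0_ne {ψ : I1} : φ0 ψ ≠ none ↔ Supp ψ := by
  unfold φ0
  split_ifs with h <;> simp [h]

/-- the distinguished atom -/
noncomputable def x0 : Subgroup G0 := Sc G1 φ0

theorem atom_x0 : Atom x0 := atom_Sc φ0

theorem exists_mid (ψ : I1) : ∃ T : Subgroup G0, Atom T ∧ ¬ T ≤ p1.ker ∧ T.map p1 = Sc G2 ψ :=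
  exists_lift p1 (atom_Sc ψ) (by
    rw [MonoidHom.range_eq_top.2 (show Function.Surjective p1 from top_surj)]; exact le_top)

/-- the middle layer of atoms -/
noncomputable def mid (ψ : I1) : Subgroup G0 := (exists_mid ψ).choose

theorem atom_mid (ψ : I1) : Atom (mid ψ) := (exists_mid ψ).choose_spec.1
theorem mid_not_le (ψ : I1) : ¬ mid ψ ≤ p1.ker := (exists_mid ψ).choose_spec.2.1
theorem map_mid (ψ : I1) : (mid ψ).map p1 = Sc G2 ψ := (exists_mid ψ).choose_spec.2.2

theorem mid_inj {ψ ψ' : I1} (h : mid ψ = mid ψ') : ψ = ψ' :=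
  eq_of_Sc_le (H := G2) (by rw [← map_mid, ← map_mid, h])

theorem cj_mid (g : G0) (ψ : I1) : cj g (mid ψ) = mid (p2 g • ψ) := by
  refine ((atom_mid ψ).cj g).eq_of_map_eq (atom_mid _) p1 (cj_not_le (mid_not_le ψ) g) ?_
  rw [map_cj, map_mid, map_mid, cj_Sc]
  rfl

theorem not_nz_x0 {T : Subgroup G0} : ¬ Nz T x0 ↔ ∃ s ∈ T.map p1, s • φ0 ≠ φ0 := by
  unfold x0
  rw [not_nz_Sc]
  constructor
  · rintro ⟨t, ht, h⟩
    exact ⟨_, ⟨t, ht, rfl⟩, h⟩
  · rintro ⟨_, ⟨t, ht, rfl⟩, h⟩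
    exact ⟨t, ht, h⟩

theorem not_nz_mid {j : Subgroup G0} {ψ : I1} :
    ¬ Nz j (mid ψ) ↔ ∃ s ∈ j.map p2, s • ψ ≠ ψ := by
  rw [nz_iff]
  push Not
  constructor
  · rintro ⟨t, ht, h⟩
    rw [cj_mid] at h
    exact ⟨_, ⟨t, ht, rfl⟩, fun h' => h (by rw [h'])⟩
  · rintro ⟨_, ⟨t, ht, rfl⟩, h⟩
    exact ⟨t, ht, fun h' => h (mid_inj (by rw [← cj_mid, h']))⟩

theorem rel_mid {j : Subgroup G0} {ψ ψ' : I1} :
    Rel j (mid ψ) (mid ψ') ↔ ∃ s ∈ j.map p2, s • ψ = ψ' := by
  constructor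
  · rintro ⟨t, ht, h⟩
    rw [cj_mid] at h
    exact ⟨_, ⟨t, ht, rfl⟩, mid_inj h⟩
  · rintro ⟨_, ⟨t, ht, rfl⟩, h⟩
    exact ⟨t, ht, by rw [cj_mid, h]⟩

theorem Lam.eq_mid {j T : Subgroup G0} (hj : Atom j) (h : Lam x0 j T) : ∃ ψ, T = mid ψ := by
  have hk : ¬ T ≤ p1.ker := fun h' => h.2.1 ((nz_ker_Sc φ0).mono h')
  have hjk : ¬ j ≤ p1.ker := fun h' => hk ((h.le' hj.sn).trans h')
  obtain ⟨ψ, hψ⟩ := (hj.map p1 top_range_sn hjk).eq_Sc_of_flat flat_G2
    (h.1.map p1 top_range_sn hk) fun h' => h.2.2 ((h.1.nz_map_iff p1 hk j).1 h')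
  exact ⟨ψ, h.1.eq_of_map_eq (atom_mid ψ) p1 hk (by rw [hψ, map_mid])⟩

theorem lam_mid {j : Subgroup G0} {k : Fin 4} (hk : j.map p2 = Sc D8 k) {ψ : I1} :
    Lam x0 j (mid ψ) ↔ Supp ψ ∧ ψ k ≠ none := by
  unfold Lam
  rw [not_nz_x0, not_nz_mid, map_mid, hk, Sc_moves_iff, Sc_moves_iff, φ0_ne]
  exact ⟨fun h => h.2, fun h => ⟨atom_mid ψ, h⟩⟩

theorem Lam.not_le_p2 {j T : Subgroup G0} (hj : Atom j) (h : Lam x0 j T) : ¬ j ≤ p2.ker := by
  obtain ⟨ψ, rfl⟩ := h.eq_mid hj
  obtain ⟨_, ⟨t, ht, rfl⟩, hne⟩ := not_nz_mid.1 h.2.2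
  intro hle
  have : p2 t = 1 := hle ht
  rw [this, one_smul] at hne
  exact hne rfl

/-- points of the support -/
def pt (a : Option (Fin 5)) (b : Fin 5) : I1 := ![a, some b, none, none]

theorem supp_pt (a : Option (Fin 5)) (b : Fin 5) : Supp (pt a b) := ⟨rfl, rfl, by simp [pt]⟩

theorem frame_zero {j : Subgroup G0} {w : Fin 5 → Subgroup G0} (hj : Atom j)
    (hfr : Frame x0 j w) : j.map p2 = Sc D8 0 := by
  obtain ⟨k, hk⟩ := (hj.map p2 p2_range_sn ((hfr.lam 0).not_le_p2 hj)).eq_Sc_of_none no_atom_D8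
  obtain ⟨ψ, hψ⟩ := (hfr.lam 0).eq_mid hj
  have h0 := hfr.lam 0
  rw [hψ, lam_mid hk] at h0
  obtain ⟨⟨h2, h3, -⟩, hk'⟩ := h0
  have hcases : k = 0 ∨ k = 1 ∨ k = 2 ∨ k = 3 := by clear * -; revert k; decide
  rcases hcases with rfl | rfl | rfl | rfl
  · exact hk
  · exfalso
    have h4 : ∀ a : Option (Fin 5), ∃ i, Rel j (w i) (mid (pt a 0)) := fun a =>
      hfr.surj _ ((lam_mid hk).2 ⟨supp_pt a 0, by simp [pt]⟩)
    choose c hc using h4
    obtain ⟨a, a', hne, he⟩ := Fintype.exists_ne_map_eq_of_card_lt c (by simp)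
    have h5 := (hc a).symm.trans (he ▸ hc a')
    rw [rel_mid, hk] at h5
    obtain ⟨s, hs, hs'⟩ := h5
    have h6 := Sc_smul_ne hs (pt a 0) (b := 0) (by decide)
    rw [hs'] at h6
    exact hne h6.symm
  · exact absurd h2 hk'
  · exact absurd h3 hk'

theorem ext4 {ψ ψ' : I1} (h1 : ψ 1 = ψ' 1) (h : Supp ψ) (h' : Supp ψ') :
    ∀ b : Fin 4, b ≠ 0 → ψ b = ψ' b := by
  intro b hb
  have hcases : b = 0 ∨ b = 1 ∨ b = 2 ∨ b = 3 := by clear * -; revert b; decide
  rcases hcases with rfl | rfl | rfl | rfl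
  · exact absurd rfl hb
  · exact h1
  · rw [h.1, h'.1]
  · rw [h.2.1, h'.2.1]

theorem supp_smul {s : G2} (hs : s ∈ Sc D8 (1 : Fin 4)) {ψ : I1} (h : Supp ψ) : Supp (s • ψ) := by
  refine ⟨by rw [Sc_smul_ne hs ψ (by decide), h.1], by rw [Sc_smul_ne hs ψ (by decide), h.2.1], ?_⟩
  obtain ⟨c, hc⟩ := Option.ne_none_iff_exists'.1 h.2.2
  rw [Sc_smul_self hs, hc]
  simp

theorem partner_one {j j' : Subgroup G0} {w : Fin 5 → Subgroup G0} (hj : Atom j)
    (hfr : Frame x0 j w) (hj' : j'.map p2 = Sc D8 1) : Partner j j' w := by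
  have hk := frame_zero hj hfr
  choose ψ hψ using fun i => (hfr.lam i).eq_mid hj
  have hl : ∀ i, Supp (ψ i) ∧ ψ i 0 ≠ none := fun i => (lam_mid hk).1 (hψ i ▸ hfr.lam i)
  have hrel : ∀ {α β : I1}, Supp α → α 0 ≠ none → Supp β → β 0 ≠ none → α 1 = β 1 →
      Rel j (mid α) (mid β) := by
    intro α β h1 h2 h3 h4 h5
    rw [rel_mid, hk]
    exact exists_Sc_send (ext4 h5 h1 h3) h2 h4
  constructor
  · intro σ hσ
    choose b hb using fun i => Option.ne_none_iff_exists'.1 (hl i).1.2.2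
    have hbi : Function.Injective b := by
      intro i i' h
      refine hfr.inj i i' ?_
      rw [hψ i, hψ i']
      exact hrel (hl i).1 (hl i).2 (hl i').1 (hl i').2 (by rw [hb, hb, h])
    let β : Equiv.Perm (Fin 5) := Equiv.ofBijective b (Finite.injective_iff_bijective.1 hbi)
    have hβ : ∀ i, β i = b i := fun _ => rfl
    let s : A5 := ⟨β * σ * β⁻¹, (inferInstance : (alternatingGroup (Fin 5)).Normal).conj_mem σ hσ β⟩
    have hs : emb D8 (1 : Fin 4) s ∈ j'.map p2 := hj' ▸ emb_mem 1 s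
    obtain ⟨h, hh, he⟩ := hs
    refine ⟨h, hh, fun i => ?_⟩
    rw [hψ i, hψ (σ i), cj_mid, he]
    refine hrel (supp_smul (emb_mem 1 s) (hl i).1) ?_ (hl _).1 (hl _).2 ?_
    · rw [Sc_smul_ne (emb_mem 1 s) _ (by decide)]
      exact (hl i).2
    · rw [Sc_smul_self (emb_mem 1 s), emb_left_self, hb, hb, ← hβ, ← hβ]
      show some ((β * σ * β⁻¹) (β i)) = some (β (σ i))
      simp
  · intro h hh i
    have hs : p2 h ∈ Sc D8 (1 : Fin 4) := hj' ▸ ⟨h, hh, rfl⟩
    obtain ⟨i', hi'⟩ := hfr.surj (mid (p2 h • ψ i)) ((lam_mid hk).2 ⟨supp_smul hs (hl i).1, by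
      rw [Sc_smul_ne hs _ (by decide)]; exact (hl i).2⟩)
    exact ⟨i', by rw [hψ i, cj_mid]; exact hi'.symm⟩

theorem map_cj_zero {j : Subgroup G0} (hk : j.map p2 = Sc D8 0) (g : G0) :
    (cj g j).map p2 = Sc D8 (p3 g • (0 : Fin 4)) := by
  rw [map_cj, hk, cj_Sc]
  rfl

theorem good_x0 (k : Fin 4) (hk : k = 0 ∨ k = 1) : ¬ BadIn ((Rf k).comap p3) x0 := by
  rintro ⟨j, w, g, hj, hfr, hg, hne, hnp⟩
  have h0 := frame_zero hj hfr
  have h1 := map_cj_zero h0 g
  have h2 : p3 g • (0 : Fin 4) = 0 ∨ p3 g • (0 : Fin 4) = 1 := by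
    have h3 : p3 g = 1 ∨ p3 g = el true k := hg
    rcases hk with rfl | rfl <;> rcases h3 with h | h <;> rw [h] <;> decide
  rcases h2 with h | h
  · apply hne
    refine (hj.eq_of_map_eq (hj.cj g) p2 ((hfr.lam 0).not_le_p2 hj) ?_).symm
    rw [h1, h, h0]
  · exact hnp (partner_one hj hfr (by rw [h1, h]))

theorem bad_x0 : BadIn ⊤ x0 := by
  obtain ⟨j, hj, -, hk⟩ := exists_lift p2 (atom_Sc (H := D8) (0 : Fin 4)) (p2_range ▸ le_top)
  obtain ⟨g, hg⟩ := p3_surj (el false 2)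
  have h1 := map_cj_zero hk g
  have h2 : p3 g • (0 : Fin 4) = 2 := by rw [hg]; decide
  rw [h2] at h1
  have hinj : ∀ i i', Rel j (mid (pt (some 0) i)) (mid (pt (some 0) i')) → i = i' := by
    intro i i' h
    rw [rel_mid, hk] at h
    obtain ⟨s, hs, hs'⟩ := h
    have h6 := Sc_smul_ne hs (pt (some 0) i) (b := 1) (by decide)
    rw [hs'] at h6
    exact (Option.some_injective _ h6).symm
  refine ⟨j, fun i => mid (pt (some 0) i), g, hj, ⟨fun i => ?_, hinj, fun T hT => ?_⟩,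
    mem_top g, fun h => ?_, fun h => ?_⟩
  · exact (lam_mid hk).2 ⟨supp_pt _ _, by simp [pt]⟩
  · obtain ⟨ψ, rfl⟩ := hT.eq_mid hj
    obtain ⟨h3, h4⟩ := (lam_mid hk).1 hT
    obtain ⟨c, hc⟩ := Option.ne_none_iff_exists'.1 h3.2.2
    refine ⟨c, ?_⟩
    rw [rel_mid, hk]
    exact exists_Sc_send (ext4 hc.symm (supp_pt _ _) h3) (by simp [pt]) h4
  · rw [h, hk] at h1
    exact absurd (eq_of_Sc_le h1.le) (by decide)
  · obtain ⟨σ, hσ, hσ0⟩ := exists_three
    obtain ⟨a, ha, ha'⟩ := h.alt σ hσ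
    have hs : p2 a ∈ Sc D8 (2 : Fin 4) := h1 ▸ ⟨a, ha, rfl⟩
    have h3 : p2 a • pt (some 0) 0 = pt (some 0) 0 := by
      by_contra hcon
      exact Sc_moves_iff.1 ⟨_, hs, hcon⟩ rfl
    have h4 := ha' 0
    rw [cj_mid, h3] at h4
    exact hσ0 (hinj _ _ h4).symm

theorem not_le_bad (k : Fin 4) (hk : k = 0 ∨ k = 1) (x : Subgroup G0) (hx : Atom x)
    (hb : BadIn ((Rf k).comap p3) x) : ¬ x0 ≤ x := by
  intro hle
  obtain ⟨j, w, g, hj, hfr, h⟩ := hb
  obtain ⟨φ, rfl⟩ := eq_Sc_of_lam (not_lam_of_flat flat_G2) hx hj (hfr.lam 0)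
  obtain rfl : φ0 = φ := eq_of_Sc_le hle
  exact good_x0 k hk ⟨j, w, g, hj, hfr, h⟩

theorem UV_sup : (Rf 1).comap p3 ⊔ (Rf 0).comap p3 = ⊤ := by
  rw [comap_sup_eq _ _ _ p3_surj, Rf_sup, comap_top]

theorem counter :
    (resid ↥((Rf 1).comap p3 ⊔ (Rf 0).comap p3)).map ((Rf 1).comap p3 ⊔ (Rf 0).comap p3).subtype ≠
      (resid ((Rf 1).comap p3)).map ((Rf 1).comap p3).subtype ⊔
        (resid ((Rf 0).comap p3)).map ((Rf 0).comap p3).subtype :=
  resid_ne ((sn_Rf 1).comap p3) ((sn_Rf 0).comap p3) (UV_sup ▸ IsSubnormal.top) atom_x0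
    (UV_sup ▸ bad_x0) (not_le_bad 1 (Or.inr rfl)) (not_le_bad 0 (Or.inl rfl))

theorem chain {G : Type} [Group G] {U W : Subgroup G} (hU : U.IsSubnormal) (hW : W = ⊤) :
    ∃ n : ℕ, ∃ c : ℕ → Subgroup G, c 0 = U ∧ c n = W ∧
      ∀ i < n, c i ≤ c (i + 1) ∧ ((c i).subgroupOf (c (i + 1))).Normal := by
  obtain ⟨n, c, h1, h2, h3, h4⟩ := hU.exists_chain
  exact ⟨n, c, h3, hW ▸ h4, fun i _ => ⟨h1 (Nat.le_succ i), h2 i⟩⟩

end Pool.Agent.P.MP_0f752e_al
end
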